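import Pool.Agent.Results.MP_bd895b_nt.RandomOrbits
import Pool.Agent.U569.APL.Lin

/-!
# MP_bd895b_nt: the local-global complex for zero-cycles modulo 2 on twists of cyclic coverings by integers formed from
# arbitrary sets

The curves are those of the starting results `LocalGlobalComplexOfTwists` and `RandomOrbits`: for a hyperelliptic curve
`b y ^ 2 = ∏ k, G k (z, w)` over `ℚ`, `G k` the homogenisations of polynomials `g k` of even degrees, pairwise coprime, and
a polynomial `h` coprime to the `g k` (`Admissible`), and an even `m ∣ deg h`,

  `C a : b y ^ 2 = ∏ k, G k (z, w)`, `a x ^ m = H (z, w)`.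

`Good b g h a` (starting file `RandomOrbits`): for all even `m ∣ deg h` and every adelic zero-cycle `(z_v)` on `C a`, of
degrees congruent to `d` modulo 2, which is orthogonal to the quaternion algebras `(G k, e)`, there are squarefree integers
`n k` with `G k (z_v) = n k` in `ℚ_v* / ℚ_v*²` for all `k` and all `v`, a persistent family; if the zeros of `h` are one or
two rational numbers `α₁`, `α₂`, and `d` is odd or `b ∏ g k (α₁)` is a square, there is a zero-cycle `z` of degree `d` over
`ℚ` with `G k (z) = G k (z_v)` in `ℚ_v* / ℚ_v*²` for all `k` and all `v`: the complex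
`CH₀(C a) / 2 → ∏ v, CH₀(C a over ℚ_v) / 2 → Hom(Br, ℚ/ℤ)` is exact up to the kernels of the `(G k)`.

Let a sequence (`j = 0, 1, 2, …`) of families of vectors in `ℤ ^ ι`, `|ι| = R`, be given. The vectors of the `j`-th
family are `c₀ + y`, `c₀` an arbitrary integral vector (depending on `j`, of any size) and `y` one of the following vectors
(represented by `0, …, q - 1`):

* `y` in any family of vectors modulo some `q` (depending on `j`), whose nontrivial Fourier coefficients are at most
  `1 / (Z (42 + 3 log q) ^ R)`, where `Z → ∞`, `Z ≤ q`;
* `β(x, z) + u(x) + w(z)` modulo a prime `P → ∞`, where `β : k ^ m × k ^ n → k ^ R` is bilinear, the nontrivial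
  combinations of its coordinates have rank at least `ρ`, `x` and `z` are in ARBITRARY sets `E` and `F` with
  `|E| |F| ≥ P ^ (m + n - ρ + δ)`, `u` and `w` are arbitrary functions (for `δ > 0` fixed);
* the same for `β(x, z) = x z`, `x` and `z` in ARBITRARY subsets of the field of `P ^ R` elements,
  `|E| |F| ≥ P ^ (R + δ)`;
* polynomials in several variables of degree at most `P ^ (δ / 4)`, all nontrivial combinations of which have a monomial
  with at least two variables, plus arbitrary functions of the single variables, on products of ARBITRARY sets of at
  least `P ^ (1 / 2 + δ)` residues;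
* polynomials in one variable of degree at most `P ^ (δ / 4)`, no nontrivial combination of which is constant, on any
  subgroup of the multiplicative group modulo `P` with at least `P ^ (1 / 2 + δ)` elements.

**Theorem.** There are exceptions `E j`, `|E j| = o(size)`, such that for ALL admissible `(b, g, h)` and ALL linear forms
`λ ≠ 0` with integral coefficients, for large `j` and all vectors `c` of the `j`-th family outside of `E j` the integer
`a = λ(c)` is `Good` for `(b, g, h)`.

New: the families of integers `a`. The exceptional sets are pronull by the starting results; few members of the families are in such a set by the theorem of the starting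
library `N384.VF` on vectors of residues; the estimates of the Fourier coefficients on arbitrary sets are in `U569/APL`.
-/

set_option autoImplicit false

namespace Pool.Agent.Results.MP_bd895b_nt.ArbitrarySets

open Polynomial Filter
open Pool.Agent.N676.OR (countable_poly)
open Pool.Agent.Results.MP_bd895b_nt.LocalGlobalComplexOfTwists (Admissible)
open Pool.Agent.Results.MP_bd895b_nt.RandomOrbits (Good)
open Pool.Agent.U569.APL

/-- **The local-global complex for zero-cycles on the twists by integers formed from arbitrary sets.** -/
theorem result (ι : Type) [Fintype ι] :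
    (∀ (τ : ℕ → Type) (s : ∀ j, Finset (τ j)) (v : ∀ j, τ j → ι → ℤ), FlatFamilies s v →
      ∃ E : ∀ j, Finset (τ j), Small s E ∧
        ∀ (r : ℕ) (b : ℤ) (g : Fin r → ℤ[X]) (h : ℤ[X]), Admissible b g h → ∀ lam : ι → ℤ, lam ≠ 0 →
          Outside s E v fun c => Good b g h (∑ i, lam i * c i)) ∧
    Examples ι := by
  classical
  refine ⟨fun τ s v hs => ?_, examples _⟩
  have hcp := countable_poly
  obtain ⟨E, hE, h1⟩ := flat_linear hs
    (fun D : Σ r : ℕ, ℤ × (Fin r → ℤ[X]) × ℤ[X] => Admissible D.2.1 D.2.2.1 D.2.2.2)
    (fun D a => Good D.2.1 D.2.2.1 D.2.2.2 a)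
    (fun D hA lam hlam => Pool.Agent.Results.MP_bd895b_nt.RandomOrbits.result.1 D.1 D.2.1 D.2.2.1 D.2.2.2 hA ι lam hlam)
  exact ⟨E, hE, fun r b g h hA lam hlam => h1 ⟨r, b, g, h⟩ hA lam hlam⟩

end Pool.Agent.Results.MP_bd895b_nt.ArbitrarySets
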