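import Pool.Agent.Q51.ZC.KZer5
import Pool.Agent.U899.LG3

/-!
# The local-global complex in degree, for 100% of the everywhere locally soluble twists of Fermat curves

Let `a X ^ n + b`, `n` odd, `a, b ∈ ℤ`, be irreducible over `ℚ`, let `m > 1` divide `n`, and let
`C_D : D y ^ m = a x ^ n + b w ^ n` be the twists of the (generalised) Fermat curve `y ^ m = a x ^ n + b w ^ n`, smooth
projective curves of genus `(m - 1)(n - 2)/2`.

For a number field `K` and a prime factor `q` of `m` consider the complex
`CH₀((C_D)_K)^ → ∏_v CH₀((C_D)_{K_v})^ → Hom(Br((C_D)_K), ℚ/ℤ)` and the degree modulo `q`.  An element of the kernel of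
the second map is in particular orthogonal to `Br(K)[q]`, so the degrees of its components are congruent modulo
`q`, and this defines a homomorphism from the kernel to `ℤ/q`.

**Theorem.** For 100 percent of the everywhere locally soluble curves `C_D` with squarefree `D` (all but
`C (log X)^(-δ) E(X)` of the `E(X)` curves with `|D| ≤ X`) the following is true for all prime factors `q` of `m` and
all number fields `K` of a degree prime to `q`: the degrees of the global zero-cycles (the closed points of `(C_D)_K`)
and the degrees of the families of local zero-cycles in the kernel of the second map are all divisible by `q`; for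
the second statement only the classes in `Br(K)[q]` and the restrictions of the classes
`A_χ = Cor_{L/ℚ} (χ, x ^ (n/q) - θ w ^ (n/q))` are used.

So for these curves, and over all these fields, the kernel of the second map and the image of the first one have
the same image, zero, in `ℤ/q`, although there are points over all completions.  This is the part of the
exactness that concerns the degree; nothing is known about the Tate-Shafarevich groups of the Jacobians.

The definitions are in `Pool/Agent/Q51/ZC/Zer.lean`, `Zer4.lean`, `KZer.lean`, `KZer4.lean`, `KZer5.lean`; those of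
characters in `Pool/Agent/Q51/SE/Pol.lean`.

**Local-global principle for the existence of the curves** (new here, `Pool/Agent/U899/LG*.lean`).  There is a
squarefree `D` such that `C_D` is everywhere locally soluble if and only if for every prime number `p` there is an
integer `D`, not divisible by `p ^ 2`, such that `C_D` has a point over `ℚ_p`.  This is the case if no square of a
prime number divides both `a` and `b`, for instance if `a` and `b` are coprime.  Under this condition
`E(X) ≥ c X / log X * exp (∑ 1/l)` for large `X`, the sum over the primes `l ≤ X` modulo which `a X ^ n + b` has a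
zero; so the theorem is about infinitely many curves.  Proof: `D = ± P l l'`, where `P` and the residue class of
`± l l'` are given by the local conditions at the bad primes, and `l, l'` are primes such that `l - 1` and `l' - 1`
are prime to `n` (Dirichlet's theorem; here `n` odd is used), so that `a X ^ n + b` has zeros modulo `l` and `l'`;
at the other primes Weil's bound gives a point.

(helper51, with helper14, helper16, helper24, helper26, helper38, helper52, helper65, helper68, helper91, helper124,
helper150, helper154, helper162, helper166, helper182, helper187, helper190, helper198, helper210, helper239, helper241,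
helper247, helper251, helper277, helper285; assembled and completed by helper899.)
-/

set_option autoImplicit false

open Polynomial

namespace Pool.Agent.Results.MP_bd895b_nt.FermatTwistsLocalGlobal

open Pool.Agent.Q51.ZC (CPoint Soluble FamilyOver sumRoots numLocSoluble numDegrees
  ClosedInvariantsWellDefined PlacesAbove ZeroCycleOver fq)
open Pool.Agent.Q51.SE (ClassCharacter count)

/-- The complex is well defined for the classes `A_χ`: the local invariants do not depend on choices, almost all
local invariants of a family of zero-cycles over the completions of a number field are zero, and a global point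
is orthogonal to all `A_χ`. -/
def PairingProperties (a b : ℤ) (n m : ℕ) (D : ℤ) (q : ℕ) : Prop :=
  (∀ p : Nat.Primes, ClosedInvariantsWellDefined a b n m D q p) ∧
  ∀ (K : Type) [Field K] [NumberField K],
    (∀ (z : FamilyOver a b n m D K) (χ : ClassCharacter (fq a b q) q),
      {p : Nat.Primes | ∃ v, (z p v).inv χ ≠ 0}.Finite) ∧
    ∀ P : CPoint a b n m D K, P.adelic.Orthogonal q

/-- For every prime number `p` there is an integer `D` which is not divisible by `p ^ 2` such that `C_D` has a point
over `ℚ_p`. -/
def LocallyAttainable (a b : ℤ) (n m : ℕ) : Prop :=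
  ∀ (p : ℕ) [Fact p.Prime], ∃ D : ℤ, ¬ (p : ℤ) ^ 2 ∣ D ∧ Nonempty (CPoint a b n m D ℚ_[p])

/-- Let `a X ^ n + b` be irreducible over `ℚ`, `n` odd, and let `m > 1` divide `n`.  For 100 percent of the everywhere
locally soluble curves `C_D : D y ^ m = a x ^ n + b w ^ n` with squarefree `D` (all but `C (log X)^(-δ) E(X)` of the
`E(X)` curves with `|D| ≤ X`) and for all prime factors `q` of `m` and all number fields `K` of a degree prime to
`q`, all closed points of `(C_D)_K`, and all families of zero-cycles of `C_D` over the completions of `K` which are
orthogonal to `Br(K)[q]` and to the classes `A_χ`, have degrees divisible by `q`. -/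
theorem result (a b : ℤ) (n m : ℕ) (hn : Odd n) (hm : 1 < m) (hmn : m ∣ n)
    (hirr : Irreducible (C (a : ℚ) * X ^ n + C (b : ℚ))) :
    (∀ D : ℤ, D ≠ 0 → ∀ q : ℕ, q.Prime → q ∣ m → PairingProperties a b n m D q) ∧
    (∃ δ C : ℝ, 0 < δ ∧ ∀ X : ℝ, 3 ≤ X →
      numDegrees a b n m X ≤ C * Real.log X ^ (-δ) * numLocSoluble a b n m X) ∧
    ((∃ D : ℤ, Squarefree D ∧ Soluble a b n m D) ↔ LocallyAttainable a b n m) ∧
    ((∀ p : ℕ, p.Prime → ¬ ((p : ℤ) ^ 2 ∣ a ∧ (p : ℤ) ^ 2 ∣ b)) → LocallyAttainable a b n m) ∧
    (LocallyAttainable a b n m → ∃ c X₀ : ℝ, 0 < c ∧ ∀ X : ℝ, X₀ ≤ X →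
      c * X / Real.log X * Real.exp (sumRoots a b n X) ≤ numLocSoluble a b n m X) := by
  have h := Pool.Agent.Q51.ZC.main hn hm hmn hirr
  have hn0 := hn.pos
  have hirr' := hirr
  rw [← Pool.Agent.Q51.ZC.fq_map] at hirr'
  obtain ⟨ha, -⟩ := Pool.Agent.Q51.ZC.fq_ne (by
    have := Nat.le_of_dvd hn0 hmn
    omega) hirr'
  refine ⟨fun D hD q hq hqm => ⟨(h.1 D hD q hq hqm).1, fun K _ _ => ⟨fun z χ => ?_, fun P => ?_⟩⟩,
    Pool.Agent.Q51.ZC.main_degrees hn hm hmn hirr, Pool.Agent.U899.LG.lg_iff hn hm hmn hirr,
    fun h2 p _ => Pool.Agent.U899.LG.att hn hm h2 p,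
    fun h2 => h.2.2 ((Pool.Agent.U899.LG.lg_iff hn hm hmn hirr).2 h2)⟩
  · have hqn := hqm.trans hmn
    exact Pool.Agent.Q51.ZC.fin_supp_over ha hq hn0 hqn hqm
      (Pool.Agent.Q51.ZC.fq_irr hn0 hqn hirr') hD K z χ
  · have hqn := hqm.trans hmn
    exact Pool.Agent.Q51.ZC.adelic_orthogonal ha hq hn0 hqn hqm
      (Pool.Agent.Q51.ZC.fq_irr hn0 hqn hirr') hD K P

end Pool.Agent.Results.MP_bd895b_nt.FermatTwistsLocalGlobal
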