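import Pool.Agent.Results.MP_bd895b_nt.RandomOrbits
import Pool.Agent.U125.NO.Tw

/-!
# The local-global complex for zero-cycles modulo 2 on twists of cyclic coverings along normal sequences

Let `b y ^ 2 = ∏ k, G k (z, w)` be a hyperelliptic curve `D` over `ℚ`, where the `G k` are the
homogenisations of polynomials `g k` with integral coefficients, of even degrees, pairwise coprime, and
let `h` be a polynomial with integral coefficients, coprime to the `g k`, `H` its homogenisation
(`Admissible`). For an integer `a` and an even `m ∣ deg h` let

  `C a : b y ^ 2 = ∏ k, G k (z, w)`, `a x ^ m = H (z, w)`.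

The integer `a` is `Good` (definition of the starting result `RandomOrbits`) if for all even `m ∣ deg h` and every
adelic zero-cycle `(z_v)` on `C a`, of degrees congruent to `d` modulo 2, which is orthogonal to the quaternion
algebras `(G k, e)`:
* there are squarefree integers `n k` with `G k (z_v) = n k` in `ℚ_v* / ℚ_v*²` for all `k` and all `v`,
  and the family `n` is persistent;
* if the zeros of `h` are one or two rational numbers `α₁`, `α₂`, and `d` is odd or `b ∏ g k (α₁)` is a
  square, there is a zero-cycle `z` of degree `d` over `ℚ` with `G k (z) = G k (z_v)` in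
  `ℚ_v* / ℚ_v*²` for all `k` and all `v`: the complex
  `CH₀(C a) / 2 → ∏ v, CH₀(C a over ℚ_v) / 2 → Hom(Br, ℚ/ℤ)` is exact up to the kernels of the `(G k)`.

The starting result treats `a = λ(c_t)` for almost every random orbit `c_0, c_1, …` of a thin group. Here:

**Theorem.** Let `c_0, c_1, …` be a normal orbit in `ℤ^ι` (`NormalOrbit`): the orbit of an integral vector under a
finite family of integral affine maps along ANY normal sequence of indices, the family being wide (for all `q`
prime to some `q₀` the maps are bijective modulo `q`, and the vector can be moved to at least the proportion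
`ε > 0`, not depending on `q`, of all vectors modulo `q`). There is ONE set `E` of times of density zero such that
for ALL linear forms `λ ≠ 0` and ALL families `(b, g, h)` the integer `a = λ(c_t)` is `Good` for all but finitely
many `t` outside `E`.

Examples: (1) `c_t = (⌊b ^ t ξ_i⌋)_i` for ANY vector `ξ` of real numbers which is normal to the base `b ≥ 2`: so we
twist the curves by the integers which appear if we write down the digits of ANY normal number; (2) the orbit of
any vector `v ≠ 0` along ANY normal word in matrices which generate the special linear group modulo all `q`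
prime to some `q₀` (generators of a thin group); (3) vectors of integers whose digits are chosen from a
restricted set of vectors.

Proof. The exceptional vectors are pronull sets (`RandomOrbits`), and normal orbits visit a pronull set only at
times of density zero (engine `Pool.Agent.U125.NO`); a diagonal argument gives one set `E`.
-/

set_option autoImplicit false

namespace Pool.Agent.Results.MP_bd895b_nt.NormalSequences

open Polynomial Pool.Agent.R925.FD Pool.Agent.R925.ZC
open Pool.Agent.N676.OR (DensityZero Big)
open Pool.Agent.U125.NO (NormalOrbit Examples examples)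
open Pool.Agent.Results.MP_bd895b_nt.LocalGlobalComplexOfTwists (Admissible)
open Pool.Agent.Results.MP_bd895b_nt.RandomOrbits (Good good_of)

theorem result :
    (∀ (ι : Type) [Fintype ι] [DecidableEq ι] (c : ℕ → ι → ℤ), NormalOrbit c →
      ∃ E : Set ℕ, DensityZero E ∧ ∀ lam : ι → ℤ, lam ≠ 0 →
        ∀ (r : ℕ) (b : ℤ) (g : Fin r → ℤ[X]) (h : ℤ[X]), Admissible b g h →
          {t : ℕ | t ∉ E ∧ ¬ Good b g h (∑ i, lam i * c t i)}.Finite) ∧
    ∀ (ι : Type) [Fintype ι] [DecidableEq ι], Examples ι := by
  classical
  have hcp := Pool.Agent.N676.OR.countable_poly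
  refine ⟨fun ι _ _ c hc => ?_, fun ι _ _ => examples ι⟩
  obtain ⟨E, hE, hall⟩ := Pool.Agent.U125.NO.twists (𝔇 := Σ r : ℕ, ℤ × (Fin r → ℤ[X]) × ℤ[X])
    (fun D a => Admissible D.2.1 D.2.2.1 D.2.2.2 → Good D.2.1 D.2.2.1 D.2.2.2 a) (by
    rintro ⟨r, b, g, h⟩
    by_cases hA : Admissible b g h
    · obtain ⟨PP, h1, h2, h3⟩ := good_of hA
      exact ⟨PP, h1, h2, fun a ha _ => h3 a ha⟩
    · exact ⟨∅, Set.finite_empty, fun P hP => absurd hP (Set.notMem_empty _),
        fun a _ hA' => absurd hA' hA⟩) hc.avoids
  refine ⟨E, hE, fun lam hlam r b g h hA => ?_⟩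
  refine (hall lam hlam ⟨r, b, g, h⟩).subset ?_
  rintro t ⟨ht, ht'⟩
  exact ⟨ht, fun hgood => ht' (hgood hA)⟩

end Pool.Agent.Results.MP_bd895b_nt.NormalSequences
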